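import Pool.Agent.Helper2.LD.St2
import Pool.Agent.Helper2.LD.St2b

/-!
# LD project, module TrY: transfer of the axioms of the plain graph
-/

set_option autoImplicit false

namespace Pool.Agent.Helper90.LD

open Pool.Agent.Helper2.LD

/-! ## distances -/

private theorem edist_weak {A B : Type} {G : SimpleGraph A} {H : SimpleGraph B} (f : A → B)
    (hf : ∀ u v, G.Adj u v → H.Adj (f u) (f v) ∨ f u = f v) (u v : A) :
    H.edist (f u) (f v) ≤ G.edist u v := by
  by_cases hr : G.Reachable u v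
  · obtain ⟨p, hp⟩ := hr.exists_walk_length_eq_edist
    rw [← hp]
    clear hp hr
    induction p with
    | nil => simp
    | cons h q ih =>
      rename_i a b c
      rw [SimpleGraph.Walk.length_cons]
      rcases hf _ _ h with h1 | h1
      · calc H.edist (f a) (f c) ≤ H.edist (f a) (f b) + H.edist (f b) (f c) :=
              SimpleGraph.edist_triangle
          _ ≤ 1 + q.length := by
              gcongr
              rw [SimpleGraph.edist_eq_one_iff_adj.2 h1]
          _ = ((q.length + 1 : ℕ) : ℕ∞) := by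
              push_cast
              rw [add_comm]
      · rw [h1]
        refine ih.trans ?_
        exact_mod_cast Nat.le_succ _
  · have : G.edist u v = ⊤ := by
      rw [SimpleGraph.edist_eq_top_of_not_reachable hr]
    rw [this]
    exact le_top

private theorem edist_two {A : Type} {G : SimpleGraph A} {u v w : A} (h1 : G.Adj u w)
    (h2 : G.Adj u v) : G.edist v w ≤ 2 := by
  calc G.edist v w ≤ G.edist v u + G.edist u w := SimpleGraph.edist_triangle
    _ = 1 + 1 := by
        rw [SimpleGraph.edist_eq_one_iff_adj.2 h2.symm, SimpleGraph.edist_eq_one_iff_adj.2 h1]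
    _ = 2 := by norm_num

private theorem edist_le_two {A : Type} {G : SimpleGraph A} {u v : A} (h : G.edist u v ≤ 2) :
    u = v ∨ G.Adj u v ∨ ∃ w, G.Adj u w ∧ G.Adj w v := by
  have hr : G.Reachable u v := by
    apply SimpleGraph.reachable_of_edist_ne_top
    intro h0
    rw [h0] at h
    exact absurd h (by decide)
  obtain ⟨p, hp⟩ := hr.exists_walk_length_eq_edist
  rw [← hp] at h
  have h2 : p.length ≤ 2 := by exact_mod_cast h
  match p, h2 with
  | .nil, _ => exact Or.inl rfl
  | .cons h1 .nil, _ => exact Or.inr (Or.inl h1)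
  | .cons h1 (.cons h2 .nil), _ => exact Or.inr (Or.inr ⟨_, h1, h2⟩)

/-! ## the plain graph of a skeleton -/

section Br

variable {K V : Type} {h : ℕ} {S : SimpleGraph V} {lab : V → Finset K}

private theorem lab_nil {y : BrV K V h} (hy : y.1.2 = []) : brL lab y = lab y.1.1 := by
  unfold brL
  rw [hy]

private theorem lab_cons {y : BrV K V h} {c : Finset K} {l : List (Finset K)}
    (hy : y.1.2 = c :: l) : brL lab y = c := by
  unfold brL
  rw [hy]

private theorem card_cons {y : BrV K V h} {c : Finset K} {l : List (Finset K)}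
    (hy : y.1.2 = c :: l) : (brL lab y).card = 3 + (l.length + 1) % 3 := by
  have h1 := y.2.2
  rw [hy] at h1
  rw [lab_cons hy]
  exact h1.1

private theorem hubL_iff (hS : ∀ s, HubL (lab s)) (y : BrV K V h) :
    HubL (brL lab y) ↔ y.1.2 = [] := by
  constructor
  · intro h1
    match hl : y.1.2 with
    | [] => rfl
    | c :: l =>
      exfalso
      have h2 := card_cons (lab := lab) hl
      obtain ⟨h3, h4, h5⟩ := h1
      omega
  · intro h1
    rw [lab_nil h1]
    exact hS _

private theorem brV_ext {y z : BrV K V h} (h1 : y.1.1 = z.1.1) (h2 : y.1.2 = z.1.2) : y = z :=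
  Subtype.ext (Prod.ext h1 h2)

/-- labels at distance at most two -/
private theorem lab_ne (hL : HypL S lab) (y z : BrV K V h) (hne : y ≠ z)
    (hd : (brG K S h).edist y z ≤ 2) : brL lab y ≠ brL lab z := by
  have hub : ∀ {y z : BrV K V h} {c : Finset K} {l : List (Finset K)}, y.1.2 = [] →
      z.1.2 = c :: l → brL lab y ≠ brL lab z := by
    intro y z c l h1 h2 h3
    have h4 := (hubL_iff hL.1 y).2 h1
    rw [h3] at h4
    have h5 := (hubL_iff hL.1 z).1 h4
    rw [h2] at h5
    simp at h5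
  have one : ∀ {y z : BrV K V h} {c : Finset K}, z.1.2 = c :: y.1.2 → brL lab y ≠ brL lab z := by
    intro y z c h1 h2
    match hl : y.1.2 with
    | [] => exact hub hl h1 h2
    | c' :: l =>
      have h3 := card_cons (lab := lab) hl
      have h4 := card_cons (lab := lab) h1
      rw [hl] at h4
      rw [h2, h4] at h3
      simp only [List.length_cons] at h3
      omega
  have two : ∀ {y z : BrV K V h} {c c' : Finset K}, z.1.2 = c' :: c :: y.1.2 →
      brL lab y ≠ brL lab z := by
    intro y z c c' h1 h2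
    match hl : y.1.2 with
    | [] => exact hub hl h1 h2
    | c' :: l =>
      have h3 := card_cons (lab := lab) hl
      have h4 := card_cons (lab := lab) h1
      rw [hl] at h4
      rw [h2, h4] at h3
      simp only [List.length_cons] at h3
      omega
  rcases edist_le_two hd with h0 | h0 | ⟨w, h0, h0'⟩
  · exact absurd h0 hne
  · rcases h0 with ⟨h1, h2, h3⟩ | ⟨_, ⟨c, h3⟩ | ⟨c, h3⟩⟩
    · rw [lab_nil h1, lab_nil h2]
      refine hL.2 _ _ h3.ne ?_
      rw [SimpleGraph.edist_eq_one_iff_adj.2 h3]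
      norm_num
    · exact one h3
    · exact (one h3).symm
  · rcases h0 with ⟨h1, h2, h3⟩ | ⟨h1, ⟨c, h3⟩ | ⟨c, h3⟩⟩
    · rcases h0' with ⟨_, h5, h6⟩ | ⟨_, ⟨c', h6⟩ | ⟨c', h6⟩⟩
      · rw [lab_nil h1, lab_nil h5]
        refine hL.2 _ _ ?_ (edist_two h6 h3.symm)
        intro h7
        exact hne (brV_ext h7 (h1.trans h5.symm))
      · exact hub h1 h6
      · rw [h2] at h6
        simp at h6
    · rcases h0' with ⟨h4, _, _⟩ | ⟨h4, ⟨c', h6⟩ | ⟨c', h6⟩⟩
      · rw [h4] at h3
        simp at h3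
      · rw [h3] at h6
        exact two h6
      · rw [h3] at h6
        injection h6 with _ h7
        exact absurd (brV_ext (h1.trans h4) h7) hne
    · rcases h0' with ⟨h4, h5, _⟩ | ⟨h4, ⟨c', h6⟩ | ⟨c', h6⟩⟩
      · exact (hub h5 h3).symm
      · rw [lab_cons h3, lab_cons h6]
        intro h7
        refine hne (brV_ext (h1.trans h4) ?_)
        rw [h3, h6, h7]
      · rw [h6] at h3
        exact (two h3).symm

/-- the hub of a plain vertex -/
private def hubOf (y : BrV K V h) : BrV K V h := ⟨(y.1.1, []), Nat.zero_le _, trivial⟩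

private theorem dep_br (hB : StBrD) (hS : ∀ s, HubL (lab s)) (y : BrV K V h) :
    Dep (brG K S h) (brL lab) y y.1.2.length := by
  have key : ∀ z : BrV K V h, z.1.2 = [] → y.1.1 = z.1.1 →
      (brG K S h).edist y z = (y.1.2.length : ℕ∞) := by
    intro z hz1 hz2
    have h1 := (hB S h y z).2 y.1.2 [] [] hz2 (by simp) (by simpa using hz1) (Or.inr (Or.inl rfl))
    simpa using h1
  constructor
  · refine ⟨hubOf y, (hubL_iff hS _).2 rfl, ?_⟩
    exact key _ rfl rfl
  · intro z hz
    have hz' := (hubL_iff hS z).1 hz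
    by_cases h1 : y.1.1 = z.1.1
    · rw [key z hz' h1]
    · rw [(hB S h y z).1 h1, add_assoc]
      exact le_self_add

end Br

/-! ## the abstract transfer -/

section Abs

variable {K V X : Type} {h : ℕ} {S : SimpleGraph V} {lab : V → Finset K}
variable {P : SimpleGraph X} {L : X → Finset K}

private theorem dep_unique {x : X} {d d' : ℕ} (h1 : Dep P L x d) (h2 : Dep P L x d') : d = d' := by
  obtain ⟨⟨s, hs, hs'⟩, h3⟩ := h1
  obtain ⟨⟨t, ht, ht'⟩, h4⟩ := h2
  have e1 := h3 t ht
  have e2 := h4 s hs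
  rw [ht'] at e1
  rw [hs'] at e2
  have e1' : d ≤ d' := by exact_mod_cast e1
  have e2' : d' ≤ d := by exact_mod_cast e2
  omega

/-- what two marks see -/
private structure See (S : SimpleGraph V) (lab : V → Finset K) (P : SimpleGraph X)
    (L : X → Finset K) (h : ℕ) (y y2 : BrV K V h) (x x2 : X) : Prop where
  l1 : brL lab y = L x
  l2 : brL lab y2 = L x2
  eq : y = y2 ↔ x = x2
  adj : (brG K S h).Adj y y2 ↔ P.Adj x x2
  dist : ∀ n : ℕ, n ≤ h → ((brG K S h).edist y y2 ≤ (n : ℕ∞) ↔ P.edist x x2 ≤ (n : ℕ∞))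

private theorem see_ge {y y2 : BrV K V h} {x x2 : X} (hs : See S lab P L h y y2 x x2) (d : ℕ)
    (hd : d ≤ h) : ((d : ℕ∞) ≤ (brG K S h).edist y y2 ↔ (d : ℕ∞) ≤ P.edist x x2) := by
  have key : ∀ (e : ℕ∞) (n : ℕ), (((n + 1 : ℕ) : ℕ∞) ≤ e ↔ ¬ e ≤ (n : ℕ∞)) := by
    intro e n
    rw [not_le]
    push_cast
    exact ENat.add_one_le_iff (ENat.natCast_ne_top n)
  match d, hd with
  | 0, _ => simp
  | n + 1, hd =>
    rw [key, key, hs.dist n (by omega)]

private theorem see_eq {y y2 : BrV K V h} {x x2 : X} (hs : See S lab P L h y y2 x x2) (d : ℕ)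
    (hd : d ≤ h) (h1 : (brG K S h).edist y y2 = (d : ℕ∞)) : P.edist x x2 = (d : ℕ∞) :=
  le_antisymm ((hs.dist d hd).1 h1.le) ((see_ge hs d hd).1 h1.ge)

private theorem abs_main (hB : StBrD) (hL : HypL S lab) (h2 : 2 ≤ h)
    (R : BrV K V h → X → Prop)
    (hX : ∀ x, ∃ y, R y x)
    (h2X : ∀ y x, R y x → ∀ x2, ∃ y2, See S lab P L h y y2 x x2)
    (h2Y : ∀ y x, R y x → ∀ y2, ∃ x2, See S lab P L h y y2 x x2) : PlAx h P L := by
  -- the depth
  have hdep : ∀ y x, R y x → Dep P L x y.1.2.length := by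
    intro y x hR
    have hd := dep_br (S := S) hB hL.1 y
    have hlen : y.1.2.length ≤ h := y.2.1
    constructor
    · obtain ⟨⟨t, ht, ht'⟩, _⟩ := hd
      obtain ⟨x2, hs⟩ := h2Y y x hR t
      refine ⟨x2, ?_, see_eq hs _ hlen ht'⟩
      rw [← hs.l2]
      exact ht
    · intro x2 hx2
      obtain ⟨y2, hs⟩ := h2X y x hR x2
      rw [← see_ge hs _ hlen]
      apply hd.2
      rw [hs.l2]
      exact hx2
  -- different labels at distance at most two
  have hne : ∀ x1 x2, x1 ≠ x2 → P.edist x1 x2 ≤ 2 → L x1 ≠ L x2 := by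
    intro x1 x2 hx hd
    obtain ⟨y1, hR⟩ := hX x1
    obtain ⟨y2, hs⟩ := h2X y1 x1 hR x2
    rw [← hs.l1, ← hs.l2]
    refine lab_ne hL y1 y2 ?_ ?_
    · intro h3
      exact hx (hs.eq.1 h3)
    · have := (hs.dist 2 h2).2 (by exact_mod_cast hd)
      exact_mod_cast this
  have huniq : ∀ x x1 x2, P.Adj x x1 → P.Adj x x2 → L x1 = L x2 → x1 = x2 := by
    intro x x1 x2 h3 h4 h5
    by_contra h6
    exact hne x1 x2 h6 (edist_two h4 h3) h5
  refine ⟨?_, ?_, ?_, ?_, ?_⟩
  · intro x
    obtain ⟨y, hR⟩ := hX x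
    refine ⟨y.1.2.length, y.2.1, hdep y x hR, ?_⟩
    intro h3
    obtain ⟨x2, hs⟩ := h2Y y x hR y
    rw [← hs.l1]
    match hl : y.1.2 with
    | [] =>
      rw [hl] at h3
      simp at h3
    | c :: l =>
      rw [card_cons hl]
      rfl
  · intro x d hd hdh c hc
    obtain ⟨y, hR⟩ := hX x
    have hlen : y.1.2.length = d := dep_unique (hdep y x hR) hd
    have hchild : (c :: y.1.2).length ≤ h ∧ okl (c :: y.1.2) := by
      refine ⟨?_, ?_, y.2.2⟩
      · rw [List.length_cons]; omega
      · rw [hlen]; exact hc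
    obtain ⟨x2, hs⟩ := h2Y y x hR ⟨(y.1.1, c :: y.1.2), hchild⟩
    refine ⟨x2, ⟨?_, ?_⟩, ?_⟩
    · rw [← hs.adj]
      exact Or.inr ⟨rfl, Or.inl ⟨c, rfl⟩⟩
    · rw [← hs.l2]
      exact lab_cons rfl
    · intro x3 hx3
      refine huniq x x3 x2 hx3.1 ?_ ?_
      · rw [← hs.adj]
        exact Or.inr ⟨rfl, Or.inl ⟨c, rfl⟩⟩
      · rw [hx3.2, ← hs.l2]
        exact (lab_cons rfl).symm
  · intro x d hd
    obtain ⟨y, hR⟩ := hX x
    have hlen : y.1.2.length = d + 1 := dep_unique (hdep y x hR) hd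
    match hl : y.1.2 with
    | [] =>
      rw [hl] at hlen
      simp at hlen
    | c :: l =>
      rw [hl, List.length_cons] at hlen
      have hlen' : l.length = d := by omega
      have hpar : l.length ≤ h ∧ okl l := by
        have h3 := y.2
        rw [hl] at h3
        exact ⟨(Nat.le_succ _).trans h3.1, h3.2.2⟩
      obtain ⟨x2, hs⟩ := h2Y y x hR ⟨(y.1.1, l), hpar⟩
      have hadj : P.Adj x x2 := by
        rw [← hs.adj]
        exact Or.inr ⟨rfl, Or.inr ⟨c, hl⟩⟩
      refine ⟨x2, ⟨hadj, ?_⟩, ?_⟩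
      · rw [← hs.l2]
        match hl2 : l with
        | [] =>
          have h4 : HubL (brL lab (⟨(y.1.1, []), hpar⟩ : BrV K V h)) := (hubL_iff hL.1 _).2 rfl
          obtain ⟨h5, h6, h7⟩ := h4
          intro h8
          omega
        | c' :: l' =>
          rw [card_cons (lab := lab) (y := (⟨(y.1.1, c' :: l'), hpar⟩ : BrV K V h)) rfl]
          rw [List.length_cons] at hlen'
          omega
      · intro x3 hx3
        refine huniq x x3 x2 hx3.1 hadj ?_
        obtain ⟨y3, hs3⟩ := h2X y x hR x3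
        rw [← hs3.l2, ← hs.l2]
        have h4 := hs3.adj.2 hx3.1
        rcases h4 with ⟨h5, _, _⟩ | ⟨h5, ⟨c', h6⟩ | ⟨c', h6⟩⟩
        · rw [hl] at h5
          simp at h5
        · exfalso
          apply hx3.2
          rw [← hs3.l2, card_cons h6, hl, List.length_cons]
          omega
        · rw [hl] at h6
          injection h6 with _ h7
          have : y3 = (⟨(y.1.1, l), hpar⟩ : BrV K V h) := brV_ext h5.symm h7.symm
          rw [this]
  · intro x hd x2 hadj hc
    obtain ⟨y, hR⟩ := hX x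
    have hlen : y.1.2.length = h := dep_unique (hdep y x hR) hd
    obtain ⟨y2, hs⟩ := h2X y x hR x2
    have h4 := hs.adj.2 hadj
    rcases h4 with ⟨h5, _, _⟩ | ⟨h5, ⟨c', h6⟩ | ⟨c', h6⟩⟩
    · rw [h5] at hlen
      simp at hlen
      omega
    · have h7 := y2.2.1
      rw [h6, List.length_cons] at h7
      omega
    · rw [h6, List.length_cons] at hlen
      rw [← hs.l2] at hc
      match hl : y2.1.2 with
      | [] =>
        rw [hl] at hlen
        simp at hlen
        omega
      | c :: l =>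
        rw [card_cons hl] at hc
        rw [hl, List.length_cons] at hlen
        omega
  · intro x hd x2 hadj
    obtain ⟨y, hR⟩ := hX x
    have hlen : y.1.2.length = 0 := dep_unique (hdep y x hR) hd
    obtain ⟨y2, hs⟩ := h2X y x hR x2
    have h4 := hs.adj.2 hadj
    rw [← hs.l2]
    rcases h4 with ⟨h5, h6, _⟩ | ⟨h5, ⟨c', h6⟩ | ⟨c', h6⟩⟩
    · left
      exact (hubL_iff hL.1 _).2 h6
    · right
      rw [card_cons h6, hlen]
    · rw [h6] at hlen
      simp at hlen

end Abs

/-! ## the full graph -/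

private theorem ef_le (hE : StEFb) {A B : Type} {G : SimpleGraph A} {H : SimpleGraph B}
    {p : List (A × B)} {r r' : ℕ} (hr : r' ≤ r) (h : EF G H r p) : EF G H r' p := by
  induction r with
  | zero =>
    have : r' = 0 := by omega
    rw [this]
    exact h
  | succ r ih =>
    by_cases h1 : r' = r + 1
    · rw [h1]
      exact h
    · exact ih (by omega) (hE.mono G H r p h)

section Fl

variable {K V : Type} {k : ℕ} {C : KCode k K} {S : SimpleGraph V} {lab : V → Finset K}

/-- the root vertex -/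
private def rt (C : KCode k K) (lab : V → Finset K) (y : BrV K V (HH k)) : FullV k C lab :=
  ⟨(y, Fb.root), trivial⟩

private theorem rt_own (v : FullV k C lab) (h : fb v = Fb.root) : v = rt C lab (own v) :=
  Subtype.ext (Prod.ext rfl h)

private theorem rt_inj {y z : BrV K V (HH k)} (h : rt C lab y = rt C lab z) : y = z := by
  have := congrArg own h
  exact this

private theorem fbadj_root {K : Type} : ¬ Fb.adj (Fb.root : Fb K) Fb.root := by
  rintro (⟨h, _⟩ | ⟨h, _⟩) <;> exact h rfl

private theorem rt_adj (y z : BrV K V (HH k)) :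
    (full k C S lab).Adj (rt C lab y) (rt C lab z) ↔ (brG K S (HH k)).Adj y z := by
  constructor
  · rintro (⟨h, _, _⟩ | ⟨_, h⟩)
    · exact h
    · exact absurd h fbadj_root
  · intro h
    exact Or.inl ⟨h, rfl, rfl⟩

end Fl

private theorem enc_edist {X K : Type} (P : SimpleGraph X) (m : ℕ) (code : K → Finset ℕ)
    (L : X → Finset K) (u v : EncV m code L) : P.edist u.1.1 v.1.1 ≤ (encG P m code L).edist u v := by
  refine edist_weak (fun w : EncV m code L => w.1.1) ?_ u v
  rintro a b (⟨h, _, _⟩ | ⟨h, _⟩)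
  · exact Or.inl h
  · exact Or.inr h

theorem pTrY (hE : StEFb) (hRk : StRank) (hRL : StRankL) (hTX : StTrX) (hLF : StLocF)
    (hFD : StFD) (hIs : StIs) (hB : StBrD) : StTrY := by
  intro K V W _ _ k hk hK C S lab H hL hEF L φ hφ hLS
  set G := full k C S lab with hG
  have hcode : ∀ κ, ∀ i ∈ C.code κ, i ≤ SS k := fun κ i hi => (C.rng κ i hi).2
  have hlocG : LocAx k C.code G := hLF k hk hK C S lab
  have hlocH : LocAx k C.code H := hTX k hk hK C S lab H hEF
  have hplG : ∀ v : FullV k C lab, Plv G v ↔ fb v = Fb.root := by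
    intro v
    have h1 := hIs k hk hK C S lab v Cl.pl trivial
    have h2 : Plv G v ↔ Cl.pl = clOf (fb v) := h1
    rw [h2]
    constructor
    · intro h3
      cases hf : fb v with
      | root => rfl
      | a1 κ c => rw [hf] at h3; simp [clOf] at h3
      | a2 κ c => rw [hf] at h3; simp [clOf] at h3
      | r κ c => rw [hf] at h3; simp [clOf] at h3
      | lf κ c i => rw [hf] at h3; simp [clOf] at h3
      | mk κ c i j => rw [hf] at h3; simp [clOf] at h3
    · intro h3
      rw [h3]
      rfl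
  have hpl : ∀ (r : ℕ) (p : List (FullV k C lab × W)) (v : FullV k C lab) (w : W), 8 ≤ r →
      EF G H r p → (v, w) ∈ p → (fb v = Fb.root ↔ Plv H w) := by
    intro r p v w hr h1 h2
    rw [← hplG v]
    exact hRk.pl G H p v w (ef_le hE hr h1) h2
  have hHH : HH k = 2 ^ (k - 2) := by
    unfold HH NN
    have : k - 2 = (k - 3) + 1 := by omega
    rw [this, pow_succ]
    ring
  -- distances in `H` and in `P`
  have hdist : ∀ x x2 : {v // Plv H v},
      (H.comap (Subtype.val : {v // Plv H v} → W)).edist x x2 = H.edist x.1 x2.1 := by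
    intro x x2
    apply le_antisymm
    · have h1 := enc_edist (H.comap (Subtype.val : {v // Plv H v} → W)) (MM k) C.code L
        (φ x.1) (φ x2.1)
      have h2 : ((φ x.1).1).1 = x := by rw [hφ x]
      have h3 : ((φ x2.1).1).1 = x2 := by rw [hφ x2]
      rw [h2, h3] at h1
      refine h1.trans ?_
      exact edist_weak (fun w => φ w) (fun a b hab => Or.inl (φ.map_rel_iff.2 hab)) x.1 x2.1
    · exact edist_weak (fun w : {v // Plv H v} => w.1) (fun a b hab => Or.inl hab) x x2
  -- two marks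
  have hsee : ∀ (y y2 : BrV K V (HH k)) (x x2 : {v // Plv H v}),
      EF G H (k - 2) [(rt C lab y2, x2.1), (rt C lab y, x.1)] →
      See S lab (H.comap (Subtype.val : {v // Plv H v} → W)) L (HH k) y y2 x x2 := by
    intro y y2 x x2 hEF2
    have m1 : (rt C lab y, x.1) ∈ [(rt C lab y2, x2.1), (rt C lab y, x.1)] := by simp
    have m2 : (rt C lab y2, x2.1) ∈ [(rt C lab y2, x2.1), (rt C lab y, x.1)] := by simp
    have hlab : ∀ (z : BrV K V (HH k)) (t : {v // Plv H v}),
        (rt C lab z, t.1) ∈ [(rt C lab y2, x2.1), (rt C lab y, x.1)] → brL lab z = L t := by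
      intro z t hm
      ext κ
      rw [hLS t κ, ← hRL.2 k hk C.code G H hcode hlocG hlocH _ _ _ hEF2 hm ((hplG _).2 rfl) κ]
      exact (hFD.strAt k hk hK C S lab (rt C lab z) κ rfl).symm
    have hpi := hE.pi G H (k - 2) _ hEF2
    have hpi2 := hpi _ m1 _ m2
    refine ⟨hlab y x m1, hlab y2 x2 m2, ?_, ?_, ?_⟩
    · constructor
      · intro h1
        exact Subtype.ext (hpi2.1.1 (by rw [h1]))
      · intro h1
        exact rt_inj (hpi2.1.2 (by rw [h1]))
    · rw [← rt_adj (C := C) (S := S) (lab := lab)]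
      exact hpi2.2
    · intro n hn
      have hd0 : (brG K S (HH k)).edist y y2 = G.edist (rt C lab y) (rt C lab y2) :=
        (hFD.dist k C S lab (rt C lab y) (rt C lab y2) rfl rfl).symm
      rw [hdist, hd0]
      have hn' : n ≤ 2 ^ (k - 2) := by rw [← hHH]; exact hn
      have hn2 : (n : ℕ∞) ≤ 2 ^ (k - 2) := by exact_mod_cast hn'
      exact hRk.dist n (k - 2) hn2 G H _ _ _ _ _ hEF2 m1 m2
  have hk1 : k = (k - 1) + 1 := by omega
  have hk2 : k - 1 = (k - 2) + 1 := by omega
  refine abs_main (S := S) (lab := lab) hB hL ?_ (fun y x => EF G H (k - 1) [(rt C lab y, x.1)])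
    ?_ ?_ ?_
  · rw [hHH]
    calc 2 = 2 ^ 1 := by norm_num
      _ ≤ 2 ^ (k - 2) := Nat.pow_le_pow_right (by norm_num) (by omega)
  · intro x
    have hEF' : EF G H ((k - 1) + 1) [] := by rw [← hk1]; exact hEF
    obtain ⟨v, hv⟩ := hEF'.2.2 x.1
    have h1 := (hpl (k - 1) _ v x.1 (by omega) hv (by simp)).2 x.2
    refine ⟨own v, ?_⟩
    rw [← rt_own v h1]
    exact hv
  · intro y x hR x2
    have hR' : EF G H ((k - 2) + 1) [(rt C lab y, x.1)] := by rw [← hk2]; exact hR
    obtain ⟨v, hv⟩ := hR'.2.2 x2.1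
    have h1 := (hpl (k - 2) _ v x2.1 (by omega) hv (by simp)).2 x2.2
    refine ⟨own v, hsee y (own v) x x2 ?_⟩
    rw [← rt_own v h1]
    exact hv
  · intro y x hR y2
    have hR' : EF G H ((k - 2) + 1) [(rt C lab y, x.1)] := by rw [← hk2]; exact hR
    obtain ⟨w, hw⟩ := hR'.2.1 (rt C lab y2)
    have h1 := (hpl (k - 2) _ (rt C lab y2) w (by omega) hw (by simp)).1 rfl
    exact ⟨⟨w, h1⟩, hsee y y2 x ⟨w, h1⟩ hw⟩

end Pool.Agent.Helper90.LD
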